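import Pool.Agent.W2helper35.QF.Ch
import Pool.Agent.W516.MT.AllFinal
import Pool.Agent.W528.ZC.Eqs
import Pool.Agent.W2helper17.QF.Pow
import Pool.Agent.W2helper71.QF.Eq

/-!
# QF: the common `ℚ`-form
-/

set_option autoImplicit false
set_option linter.unusedSectionVars false

namespace Pool.Agent.W2helper35.QF

open Module TensorProduct Pool.Agent.W528.ZC Pool.Agent.H204R3.GP Pool.Agent.W516.MTD
  Pool.Agent.W516.FT

noncomputable section

variable {W T : Type} [AddCommGroup W] [Module ℚ W] [AddCommGroup T] [Module ℂ T]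
  {ι : Type} [Fintype ι] [DecidableEq ι]

/-- The known properties of the action `ρ` of the Galois group `Γ` on the rational Tate module
`ℚ_ℓ ⊗ H_1(A, ℚ)` of an abelian variety with Riemann form `ω₀`; `χ` is the cyclotomic character and
`b` a basis of `H_1(A, ℚ)`. -/
structure IsTateModule (per : W →+ T) (ω₀ : W →ₗ[ℚ] W →ₗ[ℚ] ℚ) (b : Basis ι ℚ W) (ℓ : ℕ)
    [Fact ℓ.Prime] {Γ : Type} [Group Γ] (ρ : Representation ℚ_[ℓ] Γ (ℚ_[ℓ] ⊗[ℚ] W))
    (χ : Γ →* ℚ_[ℓ]) : Prop where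
  /-- the Weil pairing is the extension of the Riemann form -/
  weil : ∃ ω : ℚ_[ℓ] ⊗[ℚ] W →ₗ[ℚ_[ℓ]] ℚ_[ℓ] ⊗[ℚ] W →ₗ[ℚ_[ℓ]] ℚ_[ℓ],
    (∀ u v : W, ω ((1 : ℚ_[ℓ]) ⊗ₜ[ℚ] u) ((1 : ℚ_[ℓ]) ⊗ₜ[ℚ] v) = ((ω₀ u v : ℚ) : ℚ_[ℓ])) ∧
    ∀ s u v, ω (ρ s u) (ρ s v) = χ s * ω u v
  /-- Faltings: semisimplicity -/
  semisimple : FiniteIndexSemisimple ρ
  /-- Faltings and Chevalley: semisimplicity of the tensor powers -/
  powers : SemiPowers (gal b ρ)
  /-- Faltings: endomorphisms -/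
  faltings : Faltings per ρ
  /-- Deligne: Hodge classes are Tate classes -/
  deligne : Deligne per ρ χ
  /-- Vasiu, Ullmo-Yafaev: the Mumford-Tate conjecture holds for the centres -/
  centres : Centres per ρ χ
  /-- Bogomolov: the connected monodromy group contains the homotheties -/
  bogomolov : ∀ c : AlgebraicClosure ℚ_[ℓ], c ≠ 0 →
    InIdentityComponent (gal b ρ) (c • (1 : Matrix ι ι (AlgebraicClosure ℚ_[ℓ])))

theorem gram_unit {ω₀ : W →ₗ[ℚ] W →ₗ[ℚ] ℚ} (hnd : ∀ u, (∀ v, ω₀ u v = 0) → u = 0)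
    (b : Basis ι ℚ W) : IsUnit (gram ω₀ b).det := by
  rw [isUnit_iff_ne_zero]
  intro h
  obtain ⟨v, hv, hv0⟩ := Matrix.exists_vecMul_eq_zero_iff.2 h
  apply hv
  have h1 : ∑ i, v i • b i = 0 := by
    apply hnd
    intro w
    have h2 : ω₀ (∑ i, v i • b i) = 0 := by
      refine b.ext fun j => ?_
      rw [map_sum, LinearMap.sum_apply, LinearMap.zero_apply]
      have h3 := congrFun hv0 j
      rw [Matrix.vecMul, Pi.zero_apply] at h3
      rw [← h3]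
      refine Finset.sum_congr rfl fun i _ => ?_
      rw [map_smul, LinearMap.smul_apply, smul_eq_mul]
      rfl
    rw [h2, LinearMap.zero_apply]
  funext i
  exact (Fintype.linearIndependent_iff.1 b.linearIndependent) v h1 i

/-- the Weil pairing in terms of matrices -/
theorem weil_matrix {k : Type} [Field k] [CharZero k] {Γ : Type} [Group Γ]
    {ρ : Representation k Γ (k ⊗[ℚ] W)} {χ : Γ →* k} {ω₀ : W →ₗ[ℚ] W →ₗ[ℚ] ℚ} (b : Basis ι ℚ W)
    (ω : k ⊗[ℚ] W →ₗ[k] k ⊗[ℚ] W →ₗ[k] k)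
    (h1 : ∀ u v : W, ω ((1 : k) ⊗ₜ[ℚ] u) ((1 : k) ⊗ₜ[ℚ] v) = ((ω₀ u v : ℚ) : k))
    (h2 : ∀ s u v, ω (ρ s u) (ρ s v) = χ s * ω u v) (s : Γ) :
    (gal b ρ s).transpose * mapQ k (gram ω₀ b) * gal b ρ s = χ s • mapQ k (gram ω₀ b) := by
  have h3 : ∀ x y, ω (b.baseChange k x) (b.baseChange k y) = mapQ k (gram ω₀ b) x y := by
    intro x y
    rw [Basis.baseChange_apply, Basis.baseChange_apply, h1]
    simp [mapQ, gram]
  have h4 : ∀ x, ρ s (b.baseChange k x) = ∑ z, gal b ρ s z x • b.baseChange k z := by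
    intro x
    conv_lhs => rw [← (b.baseChange k).sum_repr (ρ s (b.baseChange k x))]
    refine Finset.sum_congr rfl fun z _ => ?_
    congr 1
    show _ = LinearMap.toMatrix (b.baseChange k) (b.baseChange k) (ρ s) z x
    rw [LinearMap.toMatrix_apply]
  ext x y
  have h5 := h2 s (b.baseChange k x) (b.baseChange k y)
  rw [h3, h4, h4] at h5
  rw [Matrix.smul_apply, smul_eq_mul, ← h5]
  simp only [map_sum, LinearMap.sum_apply, map_smul, LinearMap.smul_apply, smul_eq_mul, h3,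
    Matrix.mul_apply, Matrix.transpose_apply, Finset.sum_mul, Finset.mul_sum]
  refine Finset.sum_congr rfl fun z _ => Finset.sum_congr rfl fun w _ => ?_
  ring

/-- the equations hold on the identity component -/
theorem eqs_of_ic {k : Type} [Field k] [CharZero k] (Ω : Type) [Field Ω] [Algebra k Ω] [CharZero Ω]
    {Γ : Type} [Group Γ] (per : W →+ T)
    {ρ : Representation k Γ (k ⊗[ℚ] W)} {χ : Γ →* k} {ω₀ : W →ₗ[ℚ] W →ₗ[ℚ] ℚ} (b : Basis ι ℚ W)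
    (hweil : ∀ s, (gal b ρ s).transpose * mapQ k (gram ω₀ b) * gal b ρ s =
      χ s • mapQ k (gram ω₀ b))
    (hD : Deligne per ρ χ) (g : Matrix ι ι Ω) (hg : InIdentityComponent (gal b ρ) g) :
    IsZeroOf (eqs per ω₀ b) g := by
  rintro f ⟨m, φ, i, p, q, hφ, rfl⟩
  set F : MvPolynomial (ι × ι) ℚ :=
    (∑ i' : Fin m × Fin 2 → ι, (∏ l, MvPolynomial.X (i' l, i l)) *
          MvPolynomial.C (φ fun l => b (i' l))) * MvPolynomial.C (ω₀ (b p) (b q)) ^ m -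
        (∑ x : ι, ∑ y : ι, MvPolynomial.X (x, p) * MvPolynomial.X (y, q) *
          MvPolynomial.C (ω₀ (b x) (b y))) ^ m * MvPolynomial.C (φ fun l => b (i l)) with hF
  -- the extension of `φ`
  let Φ := Pool.Agent.H204R3.SP.bcm (Ω := k) b φ
  obtain ⟨Δ, hΔ, hΦ⟩ := hD m φ hφ Φ (fun v => by
    rw [Pool.Agent.H204R3.SP.bcm_one, eq_ratCast])
  have h1 : ∀ (L : Type) [Field L] [Algebra ℚ L] (x : Matrix ι ι L),
      MvPolynomial.aeval (fun p => x p.1 p.2) F =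
        (∑ i' : Fin m × Fin 2 → ι, (∏ l, x (i' l) (i l)) * algebraMap ℚ L (φ fun l => b (i' l))) *
          algebraMap ℚ L (ω₀ (b p) (b q)) ^ m -
        ((x.transpose * mapQ L (gram ω₀ b) * x) p q) ^ m * algebraMap ℚ L (φ fun l => b (i l)) := by
    intro L _ _ x
    rw [hF]
    simp only [map_sub, map_mul, map_sum, map_prod, map_pow, MvPolynomial.aeval_X,
      MvPolynomial.aeval_C]
    congr 3
    simp only [Matrix.mul_apply, Matrix.transpose_apply, Finset.sum_mul]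
    rw [Finset.sum_comm]
    refine Finset.sum_congr rfl fun y _ => Finset.sum_congr rfl fun z _ => ?_
    simp only [mapQ, gram, Matrix.map_apply]
    ring
  have h2 := hg (F.map (algebraMap ℚ Ω)) ⟨Δ, hΔ, fun s hs => by
    unfold val
    rw [MvPolynomial.aeval_map_algebraMap]
    have h3 : (fun p : ι × ι => ((gal b ρ s).map (algebraMap k Ω)) p.1 p.2) =
        fun p => algebraMap k Ω (gal b ρ s p.1 p.2) := rfl
    have h4 : MvPolynomial.aeval (fun p : ι × ι => gal b ρ s p.1 p.2) F = 0 := by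
      rw [h1, hweil s]
      have h5 := hΦ s hs (fun l => (b.baseChange k) (i l))
      rw [ml_act (b.baseChange k) Φ (ρ s) i] at h5
      have h6 : ∀ i : Fin m × Fin 2 → ι, Φ (fun l => (b.baseChange k) (i l)) =
          algebraMap ℚ k (φ fun l => b (i l)) := fun i => Pool.Agent.H204R3.SP.bcm_basis b φ i
      simp only [h6] at h5
      have h7 : LinearMap.toMatrix (b.baseChange k) (b.baseChange k) (ρ s) = gal b ρ s := rfl
      rw [h7] at h5
      rw [h5, Matrix.smul_apply, smul_eq_mul]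
      have h8 : mapQ k (gram ω₀ b) p q = algebraMap ℚ k (ω₀ (b p) (b q)) := rfl
      rw [h8]
      ring
    have h5 := MvPolynomial.aeval_algebraMap_apply Ω (fun p : ι × ι => gal b ρ s p.1 p.2) F
    rw [h3]
    exact h5.trans (by rw [h4, map_zero])⟩
  unfold val at h2
  rw [MvPolynomial.aeval_map_algebraMap] at h2
  exact h2

/-- the common form -/
theorem common (hCOEF : P_COEF) (per : W →+ T) (hper : IsRationalStructure per)
    [FiniteDimensional ℚ W] (ω₀ : W →ₗ[ℚ] W →ₗ[ℚ] ℚ) (hω₀ : IsRiemannForm per ω₀) [Nonempty ι]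
    (b : Basis ι ℚ W)
    {Γ : Type} [Group Γ] (ρ : ∀ (ℓ : ℕ) [Fact ℓ.Prime], Representation ℚ_[ℓ] Γ (ℚ_[ℓ] ⊗[ℚ] W))
    (χ : ∀ (ℓ : ℕ) [Fact ℓ.Prime], Γ →* ℚ_[ℓ]) (ℓ₀ : ℕ)
    (hT : ∀ (ℓ : ℕ) [Fact ℓ.Prime], ℓ₀ ≤ ℓ → IsTateModule per ω₀ b ℓ (ρ ℓ) (χ ℓ))
    (hMT : ∀ (ℓ : ℕ) [Fact ℓ.Prime], ℓ₀ ≤ ℓ →
      ∀ (m : ℕ) (φ : MultilinearMap ℚ_[ℓ] (fun _ : Fin m × Fin 2 => ℚ_[ℓ] ⊗[ℚ] W) ℚ_[ℓ]),
        IsTateTensor (ρ ℓ) (χ ℓ) m φ → IsHodgeCombination per φ) :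
    ∃ S : Set (MvPolynomial (ι × ι) ℚ),
      (∀ (L : Type) [Field L] [Algebra ℚ L] (g : Matrix ι ι L), IsUnit g.det →
        (IsZeroOf S g ↔ InMumfordTate per b g)) ∧
      ∀ (ℓ : ℕ) [Fact ℓ.Prime], ℓ₀ ≤ ℓ → ∀ Γ' : Subgroup Γ, Γ'.FiniteIndex →
        ∀ g : Matrix ι ι (AlgebraicClosure ℚ_[ℓ]), IsUnit g.det →
          (InIdentityComponent ((gal b (ρ ℓ)).comp Γ'.subtype) g ↔ IsZeroOf S g) := by
  have hnd := Pool.Agent.W516.MTM.riemann_nondeg per ω₀ hper hω₀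
  have hH := Pool.Agent.W516.MTM.riemann_hodge per ω₀ hω₀
  have hE := fun (L : Type) [Field L] [Algebra ℚ L] (g : Matrix ι ι L) (hg : IsUnit g.det) =>
    Pool.Agent.W2helper71.QF.p_eq W T per ω₀ hH hnd ι b L g hg
  refine ⟨eqs per ω₀ b, hE, fun ℓ _ hℓ Γ' hΓ' g hg => ?_⟩
  obtain ⟨ω, h1, h2⟩ := (hT ℓ hℓ).weil
  have hweil := weil_matrix b ω h1 h2
  rw [inIC_sub (gal b (ρ ℓ)) Γ' hΓ' g]
  constructor
  · exact eqs_of_ic (AlgebraicClosure ℚ_[ℓ]) per b hweil (hT ℓ hℓ).deligne g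
  · intro h
    have h3 := (hE (AlgebraicClosure ℚ_[ℓ]) g hg).1 h
    exact tc Pool.Agent.W2helper17.QF.p_pow hCOEF ℚ_[ℓ] (AlgebraicClosure ℚ_[ℓ]) ι Γ
      (gal b (ρ ℓ)) (hT ℓ hℓ).powers (hT ℓ hℓ).bogomolov g
      (fun j Δ hΔ B hB => comm_of_mt ℚ_[ℓ] (AlgebraicClosure ℚ_[ℓ]) per ω₀ b (gram_unit hnd b)
        (ρ ℓ) (χ ℓ) hweil (hMT ℓ hℓ) g hg h3 j Δ hΔ B hB)

/-- the extension of a Riemann form is alternating and nondegenerate -/
theorem extension {k : Type} [Field k] [CharZero k] [FiniteDimensional ℚ W] {per : W →+ T}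
    (hper : IsRationalStructure per)
    {ω₀ : W →ₗ[ℚ] W →ₗ[ℚ] ℚ} (hω₀ : IsRiemannForm per ω₀) (b : Basis ι ℚ W)
    (ω : k ⊗[ℚ] W →ₗ[k] k ⊗[ℚ] W →ₗ[k] k)
    (h1 : ∀ u v : W, ω ((1 : k) ⊗ₜ[ℚ] u) ((1 : k) ⊗ₜ[ℚ] v) = ((ω₀ u v : ℚ) : k)) :
    (∀ v, ω v v = 0) ∧ ∀ u, (∀ v, ω u v = 0) → u = 0 := by
  have hnd₀ := Pool.Agent.W516.MTM.riemann_nondeg per ω₀ hper hω₀
  obtain ⟨E, hE, -, hE0, -⟩ := hω₀
  have ha : ∀ u v, ω₀ u v = -ω₀ v u := by
    have hz : ∀ u, ω₀ u u = 0 := fun u => by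
      have h2 := hE u u
      rw [hE0] at h2
      exact_mod_cast h2.symm
    intro u v
    have h2 := hz (u + v)
    simp only [map_add, LinearMap.add_apply, hz, zero_add, add_zero] at h2
    linarith
  have hflip : ω.flip = -ω := by
    refine (b.baseChange k).ext fun i => (b.baseChange k).ext fun j => ?_
    rw [LinearMap.flip_apply, LinearMap.neg_apply, LinearMap.neg_apply, Basis.baseChange_apply,
      Basis.baseChange_apply, h1, h1, ha]
    push_cast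
    rfl
  refine ⟨fun v => ?_, fun u hu => ?_⟩
  · have h2 : ω v v = -ω v v := by
      have h3 := congrArg (fun F : k ⊗[ℚ] W →ₗ[k] k ⊗[ℚ] W →ₗ[k] k => F v v) hflip
      simpa using h3
    have h3 : (2 : k) * ω v v = 0 := by linear_combination h2
    rcases mul_eq_zero.1 h3 with h4 | h4
    · exact absurd h4 two_ne_zero
    · exact h4
  · exact Pool.Agent.W516.DR.nondeg_ext ω₀ ω (fun u v => by rw [h1, eq_ratCast]) hnd₀ u hu

end

end Pool.Agent.W2helper35.QF
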