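import Pool.Agent.W2helper35.QF.Tc

/-!
# QF: from Tate tensors to commuting matrices in the tensor powers
-/

set_option autoImplicit false
set_option linter.unusedSectionVars false

namespace Pool.Agent.W2helper35.QF

open Module TensorProduct Pool.Agent.W528.ZC Pool.Agent.H204R3.GP Pool.Agent.W516.MTD

noncomputable section

section ml

variable {K V : Type*} [Field K] [AddCommGroup V] [Module K V] {ι : Type*} [Fintype ι]
  [DecidableEq ι] {κ : Type*} [Fintype κ] [DecidableEq κ] (bV : Basis ι K V)

/-- the multilinear form with given coordinates -/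
def mlf (t : (κ → ι) → K) : MultilinearMap K (fun _ : κ => V) K :=
  ∑ i : κ → ι, t i • (MultilinearMap.mkPiAlgebra K κ K).compLinearMap (fun l => bV.coord (i l))

theorem mlf_basis (t : (κ → ι) → K) (J : κ → ι) : mlf bV t (fun l => bV (J l)) = t J := by
  unfold mlf
  rw [_root_.sum_apply]
  have h1 : ∀ I : κ → ι, (t I • (MultilinearMap.mkPiAlgebra K κ K).compLinearMap
      (fun l => bV.coord (I l))) (fun l => bV (J l)) = t I * (if I = J then 1 else 0) := by
    intro I
    rw [_root_.smul_apply, MultilinearMap.compLinearMap_apply,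
      MultilinearMap.mkPiAlgebra_apply, smul_eq_mul]
    congr 1
    have h2 : ∀ l, (bV.coord (I l)) (bV (J l)) = if I l = J l then 1 else 0 := by
      intro l
      rw [Basis.coord_apply, Basis.repr_self, Finsupp.single_apply]
      by_cases h : I l = J l
      · rw [if_pos h, if_pos h.symm]
      · rw [if_neg h, if_neg (fun h' => h h'.symm)]
    rw [Finset.prod_congr rfl (fun l _ => h2 l)]
    by_cases h : I = J
    · rw [if_pos h, h]
      exact Finset.prod_eq_one fun l _ => if_pos rfl
    · rw [if_neg h]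
      obtain ⟨l, hl⟩ := Function.ne_iff.1 h
      exact Finset.prod_eq_zero (Finset.mem_univ l) (if_neg hl)
  rw [Finset.sum_congr rfl (fun I _ => h1 I)]
  simp only [mul_ite, mul_one, mul_zero, Finset.sum_ite_eq', Finset.mem_univ, if_true]

/-- the action on coordinates -/
theorem ml_act (φ : MultilinearMap K (fun _ : κ => V) K) (f : V →ₗ[K] V) (i : κ → ι) :
    φ (fun l => f (bV (i l))) =
      ∑ i' : κ → ι, (∏ l, LinearMap.toMatrix bV bV f (i' l) (i l)) * φ (fun l => bV (i' l)) := by
  have h1 : ∀ l, f (bV (i l)) = ∑ x, LinearMap.toMatrix bV bV f x (i l) • bV x := by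
    intro l
    conv_lhs => rw [← bV.sum_repr (f (bV (i l)))]
    refine Finset.sum_congr rfl fun x _ => ?_
    rw [LinearMap.toMatrix_apply]
  simp only [h1]
  rw [MultilinearMap.map_sum]
  refine Finset.sum_congr rfl fun i' _ => ?_
  rw [MultilinearMap.map_smul_univ, smul_eq_mul]

end ml

section coord

variable {R : Type*} [CommRing R] {ι : Type*} [Fintype ι] [DecidableEq ι]

/-- splitting the index -/
def spl (j : ℕ) : (Fin j × Fin 2 → ι) ≃ (Fin j → ι) × (Fin j → ι) where
  toFun i := (fun l => i (l, 0), fun l => i (l, 1))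
  invFun p := fun l => if l.2 = 0 then p.1 l.1 else p.2 l.1
  left_inv i := by
    funext ⟨l, e⟩
    fin_cases e <;> simp
  right_inv p := by
    ext l <;> simp

theorem coord_act (j : ℕ) (M : Matrix ι ι R) (T : Matrix (Fin j → ι) (Fin j → ι) R)
    (i : Fin j × Fin 2 → ι) :
    ∑ i' : Fin j × Fin 2 → ι, (∏ l, M (i' l) (i l)) *
      T (fun l => i' (l, 0)) (fun l => i' (l, 1)) =
      ((kp j M).transpose * T * kp j M) (fun l => i (l, 0)) (fun l => i (l, 1)) := by
  rw [← (spl j).symm.sum_comp, Fintype.sum_prod_type]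
  rw [Matrix.mul_apply]
  simp only [Matrix.mul_apply, Finset.sum_mul]
  rw [Finset.sum_comm]
  refine Finset.sum_congr rfl fun y _ => Finset.sum_congr rfl fun x _ => ?_
  have h1 : ∏ l : Fin j × Fin 2, M ((spl j).symm (x, y) l) (i l) =
      (∏ l, M (x l) (i (l, 0))) * ∏ l, M (y l) (i (l, 1)) := by
    rw [Fintype.prod_prod_type]
    simp only [Fin.prod_univ_two]
    rw [Finset.prod_mul_distrib]
    rfl
  rw [h1]
  have h2 : (fun l => (spl j).symm (x, y) (l, 0)) = x := rfl
  have h3 : (fun l => (spl j).symm (x, y) (l, 1)) = y := rfl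
  rw [h2, h3]
  show _ = (∏ l, M (x l) (i (l, 0))) * T x y * ∏ l, M (y l) (i (l, 1))
  ring

end coord

variable {W T : Type} [AddCommGroup W] [Module ℚ W] [AddCommGroup T] [Module ℂ T]

/-- the Gram matrix -/
def gram (ω₀ : W →ₗ[ℚ] W →ₗ[ℚ] ℚ) {ι : Type} (b : Basis ι ℚ W) : Matrix ι ι ℚ :=
  fun x y => ω₀ (b x) (b y)

theorem kp_unit {R : Type*} [CommRing R] {ι : Type*} [Fintype ι] [DecidableEq ι] (j : ℕ)
    (M : Matrix ι ι R) (hM : IsUnit M.det) : kp j M * kp j M⁻¹ = 1 ∧ kp j M⁻¹ * kp j M = 1 := by
  rw [← kp_mul, ← kp_mul, Matrix.mul_nonsing_inv _ hM, Matrix.nonsing_inv_mul _ hM, kp_one]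
  exact ⟨rfl, rfl⟩

/-- the main step -/
theorem comm_of_mt (k : Type) [Field k] [CharZero k] (Ω : Type) [Field Ω] [Algebra k Ω]
    [CharZero Ω] (per : W →+ T)
    (ω₀ : W →ₗ[ℚ] W →ₗ[ℚ] ℚ) {ι : Type} [Fintype ι] [DecidableEq ι] (b : Basis ι ℚ W)
    (hdet : IsUnit (gram ω₀ b).det) {Γ : Type} [Group Γ] (ρ : Representation k Γ (k ⊗[ℚ] W))
    (χ : Γ →* k)
    (hweil : ∀ s, (gal b ρ s).transpose * mapQ k (gram ω₀ b) * gal b ρ s =
      χ s • mapQ k (gram ω₀ b))
    (hMT : ∀ (m : ℕ) (φ : MultilinearMap k (fun _ : Fin m × Fin 2 => k ⊗[ℚ] W) k),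
      IsTateTensor ρ χ m φ → IsHodgeCombination per φ)
    (g : Matrix ι ι Ω) (hgdet : IsUnit g.det) (hg : InMumfordTate per b g) (j : ℕ)
    (Δ : Subgroup Γ) (hΔ : Δ.FiniteIndex) (B : Matrix (Fin j → ι) (Fin j → ι) k)
    (hB : ∀ s ∈ Δ, B * kp j (gal b ρ s) = kp j (gal b ρ s) * B) :
    B.map (algebraMap k Ω) * kp j g = kp j g * B.map (algebraMap k Ω) := by
  obtain ⟨c, hc0, hc⟩ := hg
  let φ := algebraMap k Ω
  let ψ := gram ω₀ b
  -- the statement for one matrix
  have key : ∀ B : Matrix (Fin j → ι) (Fin j → ι) k,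
      (∀ s ∈ Δ, B * kp j (gal b ρ s) = kp j (gal b ρ s) * B) →
      (kp j g).transpose * (B.map φ).transpose * kp j (mapQ Ω ψ) * kp j g =
        c ^ j • ((B.map φ).transpose * kp j (mapQ Ω ψ)) := by
    intro B hB
    let t : Matrix (Fin j → ι) (Fin j → ι) k := B.transpose * kp j (mapQ k ψ)
    let F := mlf (κ := Fin j × Fin 2) (b.baseChange k) fun i => t (fun l => i (l, 0)) (fun l => i (l, 1))
    have hF : ∀ i : Fin j × Fin 2 → ι, F (fun l => (b.baseChange k) (i l)) = t (fun l => i (l, 0)) (fun l => i (l, 1)) :=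
      fun i => mlf_basis _ _ i
    have htate : IsTateTensor ρ χ j F := by
      refine ⟨Δ, hΔ, fun s hs v => ?_⟩
      have h1 : F.compLinearMap (fun _ => ρ s) = χ s ^ j • F := by
        refine Basis.ext_multilinear (fun _ => b.baseChange k) fun i => ?_
        rw [MultilinearMap.compLinearMap_apply, MultilinearMap.smul_apply, smul_eq_mul]
        rw [ml_act (b.baseChange k) F (ρ s) i]
        simp only [hF]
        have h2 : LinearMap.toMatrix (b.baseChange k) (b.baseChange k) (ρ s) = gal b ρ s := rfl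
        rw [h2, coord_act]
        have h3 : (kp j (gal b ρ s)).transpose * t * kp j (gal b ρ s) = χ s ^ j • t := by
          have h4 : (kp j (gal b ρ s)).transpose * B.transpose =
              B.transpose * (kp j (gal b ρ s)).transpose := by
            rw [← Matrix.transpose_mul, ← Matrix.transpose_mul, hB s hs]
          calc (kp j (gal b ρ s)).transpose * (B.transpose * kp j (mapQ k ψ)) * kp j (gal b ρ s)
              = (kp j (gal b ρ s)).transpose * B.transpose * kp j (mapQ k ψ) * kp j (gal b ρ s) := by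
                rw [Matrix.mul_assoc (kp j (gal b ρ s)).transpose B.transpose]
            _ = B.transpose * ((kp j (gal b ρ s)).transpose * kp j (mapQ k ψ) * kp j (gal b ρ s)) := by
                rw [h4]
                simp only [Matrix.mul_assoc]
            _ = B.transpose * kp j ((gal b ρ s).transpose * mapQ k ψ * gal b ρ s) := by
                rw [kp_transpose, kp_mul, kp_mul]
            _ = χ s ^ j • t := by
                rw [hweil s, kp_smul, Matrix.mul_smul]
        rw [h3]
        rfl
      exact congrArg (fun G : MultilinearMap k (fun _ : Fin j × Fin 2 => k ⊗[ℚ] W) k => G v) h1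
    have hcomb := hMT j F htate
    -- the equations for `F`
    have hP : ∀ G ∈ Submodule.span k {φ' : MultilinearMap k (fun _ : Fin j × Fin 2 => k ⊗[ℚ] W) k |
        ∃ ψ : MultilinearMap ℚ (fun _ : Fin j × Fin 2 => W) ℚ, IsHodgeTensor per ψ ∧
          ∀ v : Fin j × Fin 2 → W, φ' (fun l => (1 : k) ⊗ₜ[ℚ] v l) = ((ψ v : ℚ) : k)},
        ∀ i : Fin j × Fin 2 → ι, ∑ i' : Fin j × Fin 2 → ι, (∏ l, g (i' l) (i l)) *
          φ (G fun l => (b.baseChange k) (i' l)) = c ^ j * φ (G fun l => (b.baseChange k) (i l)) := by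
      intro G hG
      induction hG using Submodule.span_induction with
      | mem G hG =>
        obtain ⟨ψ', hψ', hGψ⟩ := hG
        intro i
        have h5 : ∀ i : Fin j × Fin 2 → ι, φ (G fun l => (b.baseChange k) (i l)) =
            algebraMap ℚ Ω (ψ' fun l => b (i l)) := by
          intro i
          have h6 : (fun l => (b.baseChange k) (i l)) = fun l => (1 : k) ⊗ₜ[ℚ] b (i l) := by
            funext l
            rw [Basis.baseChange_apply]
          rw [h6, hGψ]
          rw [map_ratCast, eq_ratCast]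
        simp only [h5]
        exact hc j ψ' hψ' i
      | zero =>
        intro i
        simp
      | add G G' _ _ h h' =>
        intro i
        simp only [MultilinearMap.add_apply, map_add, mul_add, Finset.sum_add_distrib]
        rw [h i, h' i]
      | smul a G _ h =>
        intro i
        simp only [MultilinearMap.smul_apply, smul_eq_mul, map_mul]
        have : ∀ i' : Fin j × Fin 2 → ι, (∏ l, g (i' l) (i l)) * (φ a * φ (G fun l => (b.baseChange k) (i' l))) =
            φ a * ((∏ l, g (i' l) (i l)) * φ (G fun l => (b.baseChange k) (i' l))) := fun i' => by ring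
        simp only [this]
        rw [← Finset.mul_sum, h i]
        ring
    have hall := hP F hcomb
    simp only [hF] at hall
    have htmap : t.map φ = (B.map φ).transpose * kp j (mapQ Ω ψ) := by
      show (B.transpose * kp j (mapQ k ψ)).map φ = _
      rw [Matrix.map_mul, kp_map]
      congr 2
      ext x y
      simp only [mapQ, Matrix.map_apply]
      rw [eq_ratCast, map_ratCast, eq_ratCast]
    ext x y
    have h7 := hall ((spl j).symm (x, y))
    have h8 := coord_act j g (t.map φ) ((spl j).symm (x, y))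
    simp only [Matrix.map_apply] at h8
    rw [h7] at h8
    have h9 : (fun l => (spl j).symm (x, y) (l, 0)) = x := rfl
    have h10 : (fun l => (spl j).symm (x, y) (l, 1)) = y := rfl
    rw [h9, h10] at h8
    rw [Matrix.smul_apply, smul_eq_mul, ← htmap, Matrix.map_apply, h8, htmap]
    simp only [Matrix.mul_assoc]
  have k1 := key B hB
  have k2 := key 1 (fun s _ => by rw [Matrix.one_mul, Matrix.mul_one])
  rw [Matrix.map_one _ (map_zero _) (map_one _), Matrix.transpose_one, Matrix.mul_one,
    Matrix.one_mul] at k2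
  -- cancel
  obtain ⟨u1, u2⟩ := kp_unit j g hgdet
  have hψ' : IsUnit (mapQ Ω ψ).det := by
    have h1 := (algebraMap ℚ Ω).map_det ψ
    rw [RingHom.mapMatrix_apply] at h1
    unfold mapQ
    rw [← h1]
    exact hdet.map _
  obtain ⟨w1, w2⟩ := kp_unit j (mapQ Ω ψ) hψ'
  have k3 : (kp j g).transpose * (B.map φ).transpose * (kp j (mapQ Ω ψ) * kp j g) =
      (B.map φ).transpose * (kp j g).transpose * (kp j (mapQ Ω ψ) * kp j g) := by
    calc _ = (kp j g).transpose * (B.map φ).transpose * kp j (mapQ Ω ψ) * kp j g := by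
          simp only [Matrix.mul_assoc]
      _ = c ^ j • ((B.map φ).transpose * kp j (mapQ Ω ψ)) := k1
      _ = (B.map φ).transpose * (c ^ j • kp j (mapQ Ω ψ)) := by rw [Matrix.mul_smul]
      _ = (B.map φ).transpose * ((kp j g).transpose * kp j (mapQ Ω ψ) * kp j g) := by rw [k2]
      _ = _ := by simp only [Matrix.mul_assoc]
  have k4 : (kp j (mapQ Ω ψ) * kp j g) * (kp j g⁻¹ * kp j (mapQ Ω ψ)⁻¹) = 1 := by
    calc _ = kp j (mapQ Ω ψ) * (kp j g * kp j g⁻¹) * kp j (mapQ Ω ψ)⁻¹ := by
          simp only [Matrix.mul_assoc]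
      _ = 1 := by rw [u1, Matrix.mul_one, w1]
  have k5 : (kp j g).transpose * (B.map φ).transpose = (B.map φ).transpose * (kp j g).transpose := by
    have h := congrArg (fun X => X * (kp j g⁻¹ * kp j (mapQ Ω ψ)⁻¹)) k3
    rw [Matrix.mul_assoc, k4, Matrix.mul_one, Matrix.mul_assoc, k4, Matrix.mul_one] at h
    exact h
  have k6 := congrArg Matrix.transpose k5
  rw [Matrix.transpose_mul, Matrix.transpose_mul, Matrix.transpose_transpose,
    Matrix.transpose_transpose] at k6
  exact k6

end

end Pool.Agent.W2helper35.QF
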