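import Mathlib
import Pool.Agent.W528.ZC.FinDefs
import Pool.Agent.W528.ZC.FinDefs2
import Pool.Agent.H204R3.GP.MTDefs
import Pool.Agent.W516.FourDefs
import Pool.Agent.W516.MT.Defs

/-!
# Project QF (helper35, MP_e965d0_ag): common `ℚ`-form of the `ℓ`-adic monodromy groups

Definitions and the statements of the pieces.
-/

set_option autoImplicit false

namespace Pool.Agent.W2helper35.QF

open Module TensorProduct Pool.Agent.W528.ZC Pool.Agent.H204R3.GP Pool.Agent.W516.MTD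

noncomputable section

/-- The tensor power of a matrix, in coordinates. -/
def kp {R : Type*} [CommSemiring R] {ι : Type*} (j : ℕ) (M : Matrix ι ι R) :
    Matrix (Fin j → ι) (Fin j → ι) R :=
  fun a b => ∏ l, M (a l) (b l)

/-- All tensor powers of the representation given by the matrices `ρ s` are semisimple as
representations of every subgroup of finite index (Faltings, Chevalley). -/
def SemiPowers {k : Type} [Field k] {ι : Type} [Fintype ι] {Γ : Type} [Group Γ] [DecidableEq ι]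
    (ρ : Γ →* Matrix ι ι k) : Prop :=
  ∀ (j : ℕ) (Δ : Subgroup Γ), Δ.FiniteIndex → ∀ U : Submodule k ((Fin j → ι) → k),
    (∀ s ∈ Δ, ∀ u ∈ U, (kp j (ρ s)).mulVec u ∈ U) →
    ∃ U' : Submodule k ((Fin j → ι) → k), (∀ s ∈ Δ, ∀ u ∈ U', (kp j (ρ s)).mulVec u ∈ U') ∧
      IsCompl U U'

/-- The invertible matrix `g` is a point of the Mumford-Tate group: for some `c ≠ 0` it multiplies
every Hodge class in `(H^1)^{⊗ 2 m}(m)`, for all `m`, by `c ^ m`. -/
def InMumfordTate {W T : Type} [AddCommGroup W] [Module ℚ W] [AddCommGroup T] [Module ℂ T]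
    (per : W →+ T) {ι : Type} [Fintype ι] [DecidableEq ι] (b : Basis ι ℚ W) {L : Type} [Field L]
    [Algebra ℚ L] (g : Matrix ι ι L) : Prop :=
  ∃ c : L, c ≠ 0 ∧ ∀ (m : ℕ) (φ : MultilinearMap ℚ (fun _ : Fin m × Fin 2 => W) ℚ),
    IsHodgeTensor per φ → ∀ i : Fin m × Fin 2 → ι,
      ∑ i' : Fin m × Fin 2 → ι, (∏ l, g (i' l) (i l)) * algebraMap ℚ L (φ fun l => b (i' l)) =
        c ^ m * algebraMap ℚ L (φ fun l => b (i l))

/-- The matrices of the Galois representation on `k ⊗ W` in a basis of `W`. -/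
def gal {k : Type} [Field k] [Algebra ℚ k] {W : Type} [AddCommGroup W] [Module ℚ W] {ι : Type}
    [Fintype ι] [DecidableEq ι] (b : Basis ι ℚ W) {Γ : Type} [Group Γ]
    (ρ : Representation k Γ (k ⊗[ℚ] W)) : Γ →* Matrix ι ι k :=
  (LinearMap.toMatrixAlgEquiv (b.baseChange k)).toMonoidHom.comp ρ

/-- POW: a power of a semisimple representation is semisimple.
Proof. `R = Algebra.adjoin k S ≤ Module.End k Y`; the `R`-submodules of `Y` are the subspaces stable
under `S`, so `Y` is a semisimple `R`-module and so is `A → Y`; `J` is an `R`-submodule; take an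
`R`-linear projection. -/
def P_POW : Prop := ∀ (k : Type) [Field k] (Y : Type) [AddCommGroup Y] [Module k Y]
  (S : Set (Module.End k Y)),
  (∀ U : Submodule k Y, (∀ s ∈ S, ∀ u ∈ U, s u ∈ U) →
    ∃ U' : Submodule k Y, (∀ s ∈ S, ∀ u ∈ U', s u ∈ U') ∧ IsCompl U U') →
  ∀ (A : Type) [Fintype A] [DecidableEq A] (J : Submodule k (A → Y)),
  (∀ s ∈ S, ∀ u ∈ J, (fun a => s (u a)) ∈ J) →
  ∃ Q : (A → Y) →ₗ[k] (A → Y), (∀ u, Q u ∈ J) ∧ (∀ u ∈ J, Q u = u) ∧
    ∀ s ∈ S, ∀ u, Q (fun a => s (u a)) = fun a => s (Q u a)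

/-- COEF: a polynomial function of a matrix in terms of the coordinates of its tensor powers.
Proof. Each monomial of degree `d` is a product of `d` variables. -/
def P_COEF : Prop := ∀ (Ω : Type) [Field Ω] (ι : Type) [Fintype ι] [DecidableEq ι]
  (f : MvPolynomial (ι × ι) Ω),
  ∃ (N : ℕ) (C : ∀ d : ℕ, Matrix (Fin d → ι) (Fin d → ι) Ω), ∀ x : Matrix ι ι Ω,
    val x f = ∑ d ∈ Finset.range N, ∑ a, ∑ b, C d a b * kp d x a b

/-- the polynomials over `ℚ` of the equations of the Mumford-Tate group -/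
def eqs {W T : Type} [AddCommGroup W] [Module ℚ W] [AddCommGroup T] [Module ℂ T]
    (per : W →+ T) (ω₀ : W →ₗ[ℚ] W →ₗ[ℚ] ℚ) {ι : Type} [Fintype ι] [DecidableEq ι]
    (b : Basis ι ℚ W) : Set (MvPolynomial (ι × ι) ℚ) :=
  {f | ∃ (m : ℕ) (φ : MultilinearMap ℚ (fun _ : Fin m × Fin 2 => W) ℚ) (i : Fin m × Fin 2 → ι)
    (p q : ι), IsHodgeTensor per φ ∧
    f = (∑ i' : Fin m × Fin 2 → ι, (∏ l, MvPolynomial.X (i' l, i l)) *
          MvPolynomial.C (φ fun l => b (i' l))) * MvPolynomial.C (ω₀ (b p) (b q)) ^ m -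
        (∑ x : ι, ∑ y : ι, MvPolynomial.X (x, p) * MvPolynomial.X (y, q) *
          MvPolynomial.C (ω₀ (b x) (b y))) ^ m * MvPolynomial.C (φ fun l => b (i l))}

/-- EQ: the equations define the Mumford-Tate group.
Proof. `m = 1`, `φ = ω₀` (a Hodge tensor by `hω`): with `ψ = (ω₀ (b p) (b q))` the equations say
`(gᵀ ψ g)_{ij} ψ_{pq} = (gᵀ ψ g)_{pq} ψ_{ij}`; choose `p`, `q` with `ψ_{pq} ≠ 0`; so `gᵀ ψ g = c ψ`,
and `c ≠ 0` since `det ψ`, `det g ≠ 0`. -/
def P_EQ : Prop := ∀ (W T : Type) [AddCommGroup W] [Module ℚ W] [AddCommGroup T] [Module ℂ T]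
  (per : W →+ T) (ω₀ : W →ₗ[ℚ] W →ₗ[ℚ] ℚ), IsHodgeBilinear per ω₀ →
  (∀ u, (∀ v, ω₀ u v = 0) → u = 0) → ∀ (ι : Type) [Fintype ι] [DecidableEq ι] [Nonempty ι]
  (b : Basis ι ℚ W) (L : Type) [Field L] [Algebra ℚ L] (g : Matrix ι ι L), IsUnit g.det →
  (IsZeroOf (eqs per ω₀ b) g ↔ InMumfordTate per b g)

/-- the tensor criterion: a matrix which commutes, in all tensor powers, with all matrices that
commute with a subgroup of finite index is in the identity component of the Zariski closure -/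
def P_TC : Prop := ∀ (k : Type) [Field k] (Ω : Type) [Field Ω] [Infinite Ω] [Algebra k Ω] (ι : Type)
  [Fintype ι] [DecidableEq ι] (Γ : Type) [Group Γ] (ρ : Γ →* Matrix ι ι k), SemiPowers ρ →
  (∀ c : Ω, c ≠ 0 → InIdentityComponent ρ (c • (1 : Matrix ι ι Ω))) → ∀ g : Matrix ι ι Ω,
  (∀ (j : ℕ) (Δ : Subgroup Γ), Δ.FiniteIndex → ∀ B : Matrix (Fin j → ι) (Fin j → ι) k,
    (∀ s ∈ Δ, B * kp j (ρ s) = kp j (ρ s) * B) →
    B.map (algebraMap k Ω) * kp j g = kp j g * B.map (algebraMap k Ω)) →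
  InIdentityComponent ρ g

end

end Pool.Agent.W2helper35.QF
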