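import Pool.Agent.W2helper35.QF.Stm
import Pool.Agent.W528.ZC.Lie

/-!
# QF: the tensor criterion
-/

set_option autoImplicit false
set_option linter.unusedSectionVars false

namespace Pool.Agent.W2helper35.QF

open Module TensorProduct Pool.Agent.W528.ZC

noncomputable section

section kp

variable {R : Type*} [CommSemiring R] {ι : Type*} [Fintype ι] [DecidableEq ι]

theorem kp_mul (j : ℕ) (M N : Matrix ι ι R) : kp j (M * N) = kp j M * kp j N := by
  ext a b
  rw [Matrix.mul_apply]
  unfold kp
  simp only [Matrix.mul_apply]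
  rw [Fintype.prod_sum]
  exact Finset.sum_congr rfl fun x _ => Finset.prod_mul_distrib

theorem kp_one (j : ℕ) : kp j (1 : Matrix ι ι R) = 1 := by
  ext a b
  unfold kp
  simp only [Matrix.one_apply]
  by_cases h : a = b
  · rw [if_pos h, h]
    exact Finset.prod_eq_one fun l _ => if_pos rfl
  · rw [if_neg h]
    obtain ⟨l, hl⟩ := Function.ne_iff.1 h
    exact Finset.prod_eq_zero (Finset.mem_univ l) (if_neg hl)

theorem kp_smul (j : ℕ) (c : R) (M : Matrix ι ι R) : kp j (c • M) = c ^ j • kp j M := by
  ext a b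
  show ∏ l, (c • M) (a l) (b l) = c ^ j * ∏ l, M (a l) (b l)
  simp only [Matrix.smul_apply, smul_eq_mul, Finset.prod_mul_distrib, Finset.prod_const,
    Finset.card_univ, Fintype.card_fin]

theorem kp_transpose (j : ℕ) (M : Matrix ι ι R) : (kp j M).transpose = kp j M.transpose := rfl

theorem kp_map {R' : Type*} [CommSemiring R'] (f : R →+* R') (j : ℕ) (M : Matrix ι ι R) :
    (kp j M).map f = kp j (M.map f) := by
  ext a b
  show f (∏ l, M (a l) (b l)) = ∏ l, f (M (a l) (b l))
  rw [map_prod]

/-- the pairing of matrices -/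
def pr {R : Type*} [CommSemiring R] {A : Type*} [Fintype A] (C M : Matrix A A R) : R :=
  ∑ a, ∑ b, C a b * M a b

end kp

variable {k : Type} [Field k] {Ω : Type} [Field Ω] [Algebra k Ω] {ι : Type} [Fintype ι]
  [DecidableEq ι] {Γ : Type} [Group Γ]

/-- the homogeneous core of the tensor criterion -/
theorem core (hPOW : P_POW) (ρ : Γ →* Matrix ι ι k) (hss : SemiPowers ρ) (g : Matrix ι ι Ω) (j : ℕ)
    (Δ : Subgroup Γ) (hΔ : Δ.FiniteIndex)
    (hg : ∀ B : Matrix (Fin j → ι) (Fin j → ι) k, (∀ s ∈ Δ, B * kp j (ρ s) = kp j (ρ s) * B) →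
      B.map (algebraMap k Ω) * kp j g = kp j g * B.map (algebraMap k Ω))
    (C : Matrix (Fin j → ι) (Fin j → ι) k) (hC : ∀ s ∈ Δ, pr C (kp j (ρ s)) = 0) :
    pr (C.map (algebraMap k Ω)) (kp j g) = 0 := by
  classical
  let A := Fin j → ι
  let S : Set (Module.End k (A → k)) := {f | ∃ s ∈ Δ, f = (kp j (ρ s)).mulVecLin}
  let J : Submodule k (A → (A → k)) :=
    { carrier := {u | ∀ s ∈ Δ, ∑ a, ∑ b, u a b * kp j (ρ s) a b = 0}
      add_mem' := by
        intro u v hu hv s hs
        simp only [Pi.add_apply, add_mul, Finset.sum_add_distrib]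
        rw [hu s hs, hv s hs, add_zero]
      zero_mem' := by
        intro s _
        simp
      smul_mem' := by
        intro c u hu s hs
        simp only [Pi.smul_apply, smul_eq_mul, mul_assoc]
        simp only [← Finset.mul_sum]
        rw [hu s hs, mul_zero] }
  have hJst : ∀ s ∈ S, ∀ u ∈ J, (fun a => s (u a)) ∈ J := by
    rintro _ ⟨s, hs, rfl⟩ u hu t ht
    have h1 := hu (t * s) (Δ.mul_mem ht hs)
    rw [map_mul, kp_mul] at h1
    rw [← h1]
    refine Finset.sum_congr rfl fun a _ => ?_
    simp only [Matrix.mulVecLin_apply, Matrix.mulVec, dotProduct, Matrix.mul_apply]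
    simp only [Finset.sum_mul, Finset.mul_sum]
    rw [Finset.sum_comm]
    refine Finset.sum_congr rfl fun x _ => Finset.sum_congr rfl fun y _ => by ring
  obtain ⟨Q, hQJ, hQid, hQeq⟩ := hPOW k (A → k) S (by
    intro U hU
    obtain ⟨U', h1, h2⟩ := hss j Δ hΔ U (fun s hs u hu => hU _ ⟨s, hs, rfl⟩ u hu)
    refine ⟨U', ?_, h2⟩
    rintro _ ⟨s, hs, rfl⟩ u hu
    exact h1 s hs u hu) A J hJst
  let B : A → A → Matrix A A k := fun a a' b b' => Q (Pi.single a' (Pi.single b' 1)) a b
  -- linearity
  have hlin : ∀ (u : A → k) (a' a b : A), Q (Pi.single a' u) a b = ∑ b', B a a' b b' * u b' := by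
    intro u a' a b
    have h1 : (Pi.single a' u : A → (A → k)) = ∑ b', u b' • Pi.single a' (Pi.single b' (1 : k)) := by
      have h0 : LinearMap.single k (fun _ : A => A → k) a' u =
          ∑ b', u b' • LinearMap.single k (fun _ : A => A → k) a' (Pi.single b' (1 : k)) := by
        conv_lhs => rw [pi_eq_sum_univ' u]
        rw [map_sum]
        simp only [map_smul]
      exact h0
    rw [h1, map_sum, Finset.sum_apply, Finset.sum_apply]
    refine Finset.sum_congr rfl fun b' _ => ?_
    rw [map_smul, Pi.smul_apply, Pi.smul_apply, smul_eq_mul, mul_comm]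
  have hBcomm : ∀ a a' : A, ∀ s ∈ Δ, B a a' * kp j (ρ s) = kp j (ρ s) * B a a' := by
    intro a a' s hs
    ext b c
    rw [Matrix.mul_apply, Matrix.mul_apply]
    have h1 := hQeq _ ⟨s, hs, rfl⟩ (Pi.single a' (Pi.single c (1 : k)))
    have h2 : (fun x => (kp j (ρ s)).mulVecLin ((Pi.single a' (Pi.single c (1 : k)) : A → (A → k)) x)) =
        Pi.single a' (fun b' => kp j (ρ s) b' c) := by
      funext x
      by_cases hx : x = a'
      · subst hx
        funext b'
        simp [Matrix.mulVec, dotProduct, Pi.single_apply]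
      · rw [Pi.single_eq_of_ne hx, Pi.single_eq_of_ne hx, map_zero]
    rw [h2] at h1
    have h3 := congrFun (congrFun h1 a) b
    rw [hlin] at h3
    rw [h3]
    rfl
  have hBg : ∀ a a' : A, (B a a').map (algebraMap k Ω) * kp j g =
      kp j g * (B a a').map (algebraMap k Ω) := fun a a' => hg _ (hBcomm a a')
  -- the trace of the columns
  have hcol : ∀ a' c : A, ∑ a, B a a' a c = 0 := by
    intro a' c
    have h1 := hQJ (Pi.single a' (Pi.single c (1 : k))) 1 Δ.one_mem
    rw [map_one, kp_one] at h1
    rw [← h1]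
    refine Finset.sum_congr rfl fun a _ => ?_
    rw [Finset.sum_eq_single a]
    · simp [B]
    · intro b _ hb
      rw [Matrix.one_apply_ne hb.symm, mul_zero]
    · simp
  -- the projection fixes `C`
  have hCJ : (C : A → A → k) ∈ J := hC
  have hfix : ∀ a b : A, C a b = ∑ a', ∑ b', B a a' b b' * C a' b' := by
    intro a b
    have h1 : Q C = C := hQid _ hCJ
    have h2 : (C : A → A → k) = ∑ a', Pi.single a' (C a') := by
      funext x
      rw [Finset.sum_apply]
      rw [Finset.sum_eq_single x]
      · rw [Pi.single_eq_same]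
      · intro y _ hy
        rw [Pi.single_eq_of_ne hy.symm]
      · simp
    calc C a b = Q C a b := by rw [h1]
      _ = Q (∑ a', Pi.single a' (C a')) a b := by rw [← h2]
      _ = ∑ a', Q (Pi.single a' (C a')) a b := by rw [map_sum, Finset.sum_apply, Finset.sum_apply]
      _ = _ := Finset.sum_congr rfl fun a' _ => hlin _ _ _ _
  -- conclusion
  set G := kp j g with hG
  let φ := algebraMap k Ω
  have hstep : ∀ a : A, ∑ b, φ (C a b) * G a b =
      ∑ a', ∑ c, φ (B a a' a c) * ∑ b', G c b' * φ (C a' b') := by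
    intro a
    have h1 : ∀ a' : A, ∀ b' : A, ∑ b, G a b * φ (B a a' b b') = ∑ c, φ (B a a' a c) * G c b' := by
      intro a' b'
      have := congrFun (congrFun (hBg a a') a) b'
      rw [Matrix.mul_apply, Matrix.mul_apply] at this
      simp only [Matrix.map_apply] at this
      exact this.symm
    calc ∑ b, φ (C a b) * G a b = ∑ b, ∑ a', ∑ b', G a b * φ (B a a' b b') * φ (C a' b') := by
          refine Finset.sum_congr rfl fun b _ => ?_
          rw [hfix a b, map_sum, Finset.sum_mul]
          refine Finset.sum_congr rfl fun a' _ => ?_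
          rw [map_sum, Finset.sum_mul]
          refine Finset.sum_congr rfl fun b' _ => ?_
          rw [map_mul]
          ring
      _ = ∑ a', ∑ b', (∑ b, G a b * φ (B a a' b b')) * φ (C a' b') := by
          rw [Finset.sum_comm]
          refine Finset.sum_congr rfl fun a' _ => ?_
          rw [Finset.sum_comm]
          refine Finset.sum_congr rfl fun b' _ => ?_
          rw [Finset.sum_mul]
      _ = ∑ a', ∑ b', (∑ c, φ (B a a' a c) * G c b') * φ (C a' b') := by
          refine Finset.sum_congr rfl fun a' _ => Finset.sum_congr rfl fun b' _ => ?_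
          rw [h1]
      _ = _ := by
          refine Finset.sum_congr rfl fun a' _ => ?_
          simp only [Finset.sum_mul, Finset.mul_sum]
          rw [Finset.sum_comm]
          refine Finset.sum_congr rfl fun c _ => Finset.sum_congr rfl fun b' _ => by ring
  have hfin : pr (C.map φ) G = ∑ a', ∑ c, φ (∑ a, B a a' a c) * ∑ b', G c b' * φ (C a' b') := by
    unfold pr
    simp only [Matrix.map_apply]
    rw [Finset.sum_congr rfl fun a _ => hstep a, Finset.sum_comm]
    refine Finset.sum_congr rfl fun a' _ => ?_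
    rw [Finset.sum_comm]
    refine Finset.sum_congr rfl fun c _ => ?_
    rw [map_sum, Finset.sum_mul]
  rw [hfin]
  refine Finset.sum_eq_zero fun a' _ => Finset.sum_eq_zero fun c _ => ?_
  rw [hcol, map_zero, zero_mul]

/-- the value of a left translate -/
theorem val_sub (x a b : Matrix ι ι Ω) (f : MvPolynomial (ι × ι) Ω) :
    val x (sub a b f) = val (a * x * b) f := ev_sub x a b f

theorem tc (hPOW : P_POW) (hCOEF : P_COEF) : P_TC := by
  intro k _ Ω _ _ _ ι _ _ Γ _ ρ hss hbog g hg f hf
  classical
  obtain ⟨Δ, hΔ, hfΔ⟩ := hf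
  obtain ⟨N, C, hC⟩ := hCOEF Ω ι f
  let φ := algebraMap k Ω
  -- homotheties
  have h1 : ∀ s ∈ Δ, ∀ c : Ω, c ≠ 0 → val (c • (ρ s).map φ) f = 0 := by
    intro s hs c hc
    have h2 := hbog c hc (sub ((ρ s).map φ) 1 f) ⟨Δ, hΔ, fun t ht => by
      rw [val_sub, mul_one]
      have h3 := hfΔ (s * t) (Δ.mul_mem hs ht)
      rw [map_mul, Matrix.map_mul] at h3
      exact h3⟩
    rw [val_sub, mul_one] at h2
    rw [← h2]
    congr 1
    rw [mul_smul_comm, mul_one]
  -- homogeneous parts
  have h2 : ∀ s ∈ Δ, ∀ d < N, pr (C d) (kp d ((ρ s).map φ)) = 0 := by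
    intro s hs d hd
    let q : Polynomial Ω := ∑ d ∈ Finset.range N,
      Polynomial.C (pr (C d) (kp d ((ρ s).map φ))) * Polynomial.X ^ d
    have hq : q = 0 := by
      apply Polynomial.eq_zero_of_infinite_isRoot
      apply Set.Infinite.mono (s := {c : Ω | c ≠ 0})
      · intro c hc
        show q.eval c = 0
        have h3 := h1 s hs c hc
        rw [hC] at h3
        rw [← h3]
        simp only [q, Polynomial.eval_finsetSum, Polynomial.eval_mul, Polynomial.eval_C,
          Polynomial.eval_pow, Polynomial.eval_X]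
        refine Finset.sum_congr rfl fun d _ => ?_
        rw [kp_smul]
        unfold pr
        rw [Finset.sum_mul]
        refine Finset.sum_congr rfl fun a _ => ?_
        rw [Finset.sum_mul]
        refine Finset.sum_congr rfl fun b _ => ?_
        rw [Matrix.smul_apply, smul_eq_mul]
        ring
      · exact (Set.finite_singleton (0 : Ω)).infinite_compl
    have h4 : q.coeff d = pr (C d) (kp d ((ρ s).map φ)) := by
      simp only [q, Polynomial.finsetSum_coeff, Polynomial.coeff_C_mul, Polynomial.coeff_X_pow]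
      rw [Finset.sum_eq_single d]
      · simp
      · intro e _ he
        rw [if_neg (Ne.symm he), mul_zero]
      · intro h
        exact absurd (Finset.mem_range.2 hd) h
    rw [← h4, hq, Polynomial.coeff_zero]
  -- conclusion
  rw [hC]
  refine Finset.sum_eq_zero fun d hd => ?_
  rw [Finset.mem_range] at hd
  let bs := Basis.ofVectorSpace k Ω
  let Ci : Basis.ofVectorSpaceIndex k Ω → Matrix (Fin d → ι) (Fin d → ι) k :=
    fun i a b => bs.repr (C d a b) i
  have h3 : ∀ i, ∀ s ∈ Δ, pr (Ci i) (kp d (ρ s)) = 0 := by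
    intro i s hs
    have h4 := h2 s hs d hd
    have h5 : pr (Ci i) (kp d (ρ s)) = bs.repr (pr (C d) (kp d ((ρ s).map φ))) i := by
      unfold pr
      rw [map_sum, Finset.sum_apply']
      refine Finset.sum_congr rfl fun a _ => ?_
      rw [map_sum, Finset.sum_apply']
      refine Finset.sum_congr rfl fun b _ => ?_
      rw [← kp_map, Matrix.map_apply, mul_comm (C d a b), ← Algebra.smul_def, map_smul,
        Finsupp.smul_apply, smul_eq_mul, mul_comm]
    rw [h5, h4, map_zero]
    rfl
  have h4 : ∀ i, pr ((Ci i).map φ) (kp d g) = 0 := fun i =>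
    core hPOW ρ hss g d Δ hΔ (hg d Δ hΔ) (Ci i) (h3 i)
  let U : Finset (Basis.ofVectorSpaceIndex k Ω) :=
    Finset.univ.biUnion fun a : Fin d → ι => Finset.univ.biUnion fun b : Fin d → ι =>
      (bs.repr (C d a b)).support
  have h5 : ∀ a b, C d a b = ∑ i ∈ U, φ (Ci i a b) * bs i := by
    intro a b
    have h6 := bs.linearCombination_repr (C d a b)
    rw [Finsupp.linearCombination_apply, Finsupp.sum] at h6
    rw [← h6]
    have h7 : (bs.repr (C d a b)).support ⊆ U := by
      intro i hi
      exact Finset.mem_biUnion.2 ⟨a, Finset.mem_univ _, Finset.mem_biUnion.2 ⟨b, Finset.mem_univ _, hi⟩⟩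
    rw [h6]
    conv_lhs => rw [← h6]
    rw [Finset.sum_subset h7]
    · refine Finset.sum_congr rfl fun i _ => ?_
      rw [Algebra.smul_def]
    · intro i _ hi
      rw [Finsupp.notMem_support_iff.1 hi, zero_smul]
  calc ∑ a, ∑ b, C d a b * kp d g a b = ∑ i ∈ U, bs i * pr ((Ci i).map φ) (kp d g) := by
        unfold pr
        simp only [Finset.mul_sum, Matrix.map_apply]
        rw [Finset.sum_comm (s := U)]
        refine Finset.sum_congr rfl fun a _ => ?_
        rw [Finset.sum_comm (s := U)]
        refine Finset.sum_congr rfl fun b _ => ?_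
        rw [h5 a b, Finset.sum_mul]
        refine Finset.sum_congr rfl fun i _ => ?_
        ring
    _ = 0 := Finset.sum_eq_zero fun i _ => by rw [h4, mul_zero]

end

end Pool.Agent.W2helper35.QF
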